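import Pool.Agent.H69.LQ.Lib
import Pool.Agent.H69.LNN.Targets

/-! Row TS: the coefficient of the profile. -/

set_option autoImplicit false

open MeasureTheory Metric Set
open scoped ENNReal Topology

namespace Pool.Agent.H51.LNN

open Pool.Agent.H85.LK (E adm lam Ann)
open Pool.Agent.H69.LQ Pool.Agent.H69.LNN

/-- parametric integrals of smooth functions -/
theorem cd_param {W : Type} [NormedAddCommGroup W] [NormedSpace ℝ W] [ProperSpace W] (n : ℕ) :
    ∀ (V : Type) [NormedAddCommGroup V] [NormedSpace ℝ V] [CompleteSpace V] (G : W → ℝ → V),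
      ContDiff ℝ (⊤ : ℕ∞) (fun q : W × ℝ => G q.1 q.2) →
      ContDiff ℝ n (fun y => ∫ r in (0 : ℝ)..1, G y r) := by
  induction n with
  | zero =>
    intro V _ _ _ G hG
    have h1 : Continuous (Function.uncurry G) := hG.continuous
    exact contDiff_zero.2
      (intervalIntegral.continuous_parametric_intervalIntegral_of_continuous' h1 0 1)
  | succ n ih =>
    intro V _ _ _ G hG
    have hG' : ContDiff ℝ (⊤ : ℕ∞) (fun q : W × ℝ =>
        (fderiv ℝ (fun q : W × ℝ => G q.1 q.2) q).comp (ContinuousLinearMap.inl ℝ W ℝ)) :=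
      (hG.fderiv_right (m := (⊤ : ℕ∞)) (by simp)).clm_comp contDiff_const
    have hd : ∀ (y : W) (r : ℝ), HasFDerivAt (fun y => G y r)
        ((fderiv ℝ (fun q : W × ℝ => G q.1 q.2) (y, r)).comp (ContinuousLinearMap.inl ℝ W ℝ)) y := by
      intro y r
      have h1 : HasFDerivAt (fun q : W × ℝ => G q.1 q.2)
          (fderiv ℝ (fun q : W × ℝ => G q.1 q.2) (y, r)) (y, r) :=
        ((hG.differentiable (by simp)) (y, r)).hasFDerivAt
      have h2 : HasFDerivAt (fun y : W => (y, r)) (ContinuousLinearMap.inl ℝ W ℝ) y :=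
        hasFDerivAt_prodMk_left y r
      exact HasFDerivAt.comp (g := fun q : W × ℝ => G q.1 q.2) y h1 h2
    push_cast
    rw [contDiff_succ_iff_hasFDerivAt]
    refine ⟨fun y => ∫ r in (0 : ℝ)..1,
      (fderiv ℝ (fun q : W × ℝ => G q.1 q.2) (y, r)).comp (ContinuousLinearMap.inl ℝ W ℝ),
      ih (W →L[ℝ] V) (fun y r => (fderiv ℝ (fun q : W × ℝ => G q.1 q.2) (y, r)).comp
        (ContinuousLinearMap.inl ℝ W ℝ)) hG', ?_⟩
    intro y₀
    have hGc : ∀ y, Continuous (fun r => G y r) := fun y =>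
      hG.continuous.comp (Continuous.prodMk continuous_const continuous_id)
    have hGc' : ∀ y, Continuous (fun r => (fderiv ℝ (fun q : W × ℝ => G q.1 q.2) (y, r)).comp
        (ContinuousLinearMap.inl ℝ W ℝ)) := fun y =>
      hG'.continuous.comp (Continuous.prodMk continuous_const continuous_id)
    obtain ⟨C, hC⟩ := ((isCompact_closedBall y₀ 1).prod
      (isCompact_Icc (a := (0 : ℝ)) (b := 1))).exists_bound_of_continuousOn
        hG'.continuous.continuousOn
    refine intervalIntegral.hasFDerivAt_integral_of_dominated_of_fderiv_le (𝕜 := ℝ)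
      (s := closedBall y₀ 1) (bound := fun _ => C)
      (F := fun y r => G y r) (F' := fun y r =>
        (fderiv ℝ (fun q : W × ℝ => G q.1 q.2) (y, r)).comp (ContinuousLinearMap.inl ℝ W ℝ))
      (closedBall_mem_nhds y₀ one_pos) ?_ ?_ ?_ ?_ ?_ ?_
    · exact Filter.Eventually.of_forall fun y => (hGc y).aestronglyMeasurable
    · exact (hGc y₀).intervalIntegrable _ _
    · exact (hGc' y₀).aestronglyMeasurable
    · refine Filter.Eventually.of_forall fun r hr y hy => ?_
      rw [uIoc_of_le zero_le_one] at hr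
      exact hC (y, r) ⟨hy, ⟨hr.1.le, hr.2⟩⟩
    · exact intervalIntegrable_const
    · exact Filter.Eventually.of_forall fun r _ y _ => hd y r

theorem pf_TS (hPH : T_PH) (_hCO : T_CO) : T_TS := by
  intro N L hN
  have hph : ContDiff ℝ (⊤ : ℕ∞) (ph N L 1) := ((hPH N L (by omega)).2.1 1).1
  have hi : ∀ (v : E N → ℝ) (y : E N), Continuous v → IntervalIntegrable
      (fun r : ℝ => r ^ (N - 3) * (v (r • y) * ph N L 1 r)) volume 0 1 := by
    intro v y hv
    refine Continuous.intervalIntegrable ?_ _ _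
    have h1 := hph.continuous
    fun_prop
  refine ⟨?_, ?_, ?_, ?_⟩
  · intro v hv
    unfold TT Tr
    refine contDiff_const.mul ?_
    rw [contDiff_infty]
    intro n
    refine cd_param n ℝ (fun y r => r ^ (N - 3) * (v (r • y) * ph N L 1 r)) ?_
    refine (contDiff_snd.pow _).mul ((hv.comp (contDiff_snd.smul contDiff_fst)).mul
      (hph.comp contDiff_snd))
  · intro v w hv hw y
    unfold TT Tr
    rw [← mul_add, ← intervalIntegral.integral_add (hi v y hv) (hi w y hw)]
    congr 1
    refine intervalIntegral.integral_congr fun r _ => ?_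
    show r ^ (N - 3) * ((v (r • y) + w (r • y)) * ph N L 1 r) =
      r ^ (N - 3) * (v (r • y) * ph N L 1 r) + r ^ (N - 3) * (w (r • y) * ph N L 1 r)
    ring
  · intro k v y
    unfold TT Tr
    have h : ∫ r in (0 : ℝ)..1, r ^ (N - 3) * ((fun x => k * v x) (r • y) * ph N L 1 r) =
        k * ∫ r in (0 : ℝ)..1, r ^ (N - 3) * (v (r • y) * ph N L 1 r) := by
      rw [← intervalIntegral.integral_const_mul]
      refine intervalIntegral.integral_congr fun (r : ℝ) _ => ?_
      show r ^ (N - 3) * (k * v (r • y) * ph N L 1 r) =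
        k * (r ^ (N - 3) * (v (r • y) * ph N L 1 r))
      ring
    have h' : ∫ r in (0 : ℝ)..1, r ^ (N - 3) * (k * v (r • y) * ph N L 1 r) =
        k * ∫ r in (0 : ℝ)..1, r ^ (N - 3) * (v (r • y) * ph N L 1 r) := h
    show (NP N L)⁻¹ * ∫ r in (0 : ℝ)..1, r ^ (N - 3) * (k * v (r • y) * ph N L 1 r) = _
    rw [h', mul_left_comm]
  · intro u v huv y hy
    unfold TT Tr
    congr 1
    refine intervalIntegral.integral_congr fun (r : ℝ) hr => ?_
    rw [uIcc_of_le (zero_le_one (α := ℝ))] at hr
    have h1 : ‖r • y‖ ≤ 1 := by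
      have h2 : ‖r • y‖ = r * ‖y‖ := by
        rw [norm_smul, Real.norm_of_nonneg hr.1]
      rw [h2]
      exact mul_le_one₀ hr.2 (norm_nonneg _) hy
    show r ^ (N - 3) * (u (r • y) * ph N L 1 r) = r ^ (N - 3) * (v (r • y) * ph N L 1 r)
    rw [huv _ h1]

end Pool.Agent.H51.LNN
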